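import Pool.Agent.CYE.StmtsB
import Pool.Agent.CYE.StmtsC

/-! # Squad CYE: row CLS (popular classes) -/

set_option autoImplicit false

open Polynomial IsLocalRing

namespace Pool.Agent.CYE.H84

open Pool.Agent.CYD Pool.Agent.CYE

section Types

variable {ι : Type}

/-- Records of the coordinates `b i`, `(i, true) ∈ T`. -/
def Rk (q : ι → ℕ) : List (ι × Bool) → Type
  | [] => Unit
  | (i, true) :: t => ZMod (q i) × Rk q t
  | (_, false) :: t => Rk q t

/-- The record of `b`. -/
def rk {q : ι → ℕ} : (T : List (ι × Bool)) → Pt q → Rk q T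
  | [], _ => ()
  | (i, true) :: t, b => (b i, rk t b)
  | (_, false) :: t, b => rk t b

theorem rk_eq {q : ι → ℕ} (b b' : Pt q) : ∀ T : List (ι × Bool), rk T b = rk T b' →
    ∀ i, (i, true) ∈ T → b i = b' i
  | [], _, i, hi => by simp at hi
  | (j, true) :: t, h, i, hi => by
    have h1 : (b j, rk t b) = (b' j, rk t b') := h
    rw [Prod.mk.injEq] at h1
    rcases List.mem_cons.mp hi with hi | hi
    · have : i = j := (Prod.mk.inj hi).1
      subst this
      exact h1.1
    · exact rk_eq b b' t h1.2 i hi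
  | (j, false) :: t, h, i, hi => by
    rcases List.mem_cons.mp hi with hi | hi
    · exact absurd (Prod.mk.inj hi).2 (by simp)
    · exact rk_eq b b' t h i hi

theorem Rk_fin (q : ι → ℕ) [∀ i, Fact (q i).Prime] : ∀ T : List (ι × Bool),
    Finite (Rk q T) ∧ Nat.card (Rk q T) = (T.map fun x => if x.2 then q x.1 else 1).prod
  | [] => ⟨inferInstanceAs (Finite Unit), by
      change Nat.card Unit = _
      simp⟩
  | (i, true) :: t => by
    obtain ⟨h1, h2⟩ := Rk_fin q t
    refine ⟨inferInstanceAs (Finite (ZMod (q i) × Rk q t)), ?_⟩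
    change Nat.card (ZMod (q i) × Rk q t) = _
    rw [Nat.card_prod, Nat.card_zmod, h2]
    simp
  | (i, false) :: t => by
    obtain ⟨h1, h2⟩ := Rk_fin q t
    refine ⟨h1, ?_⟩
    change Nat.card (Rk q t) = _
    rw [h2]
    simp

theorem code_fin : ∀ n, Nat.card (Code n) = 4 ^ (2 ^ n)
  | 0 => by
    change Nat.card (Bool × Bool) = _
    rw [Nat.card_prod, Nat.card_eq_fintype_card, Fintype.card_bool]
    norm_num
  | n + 1 => by
    change Nat.card (Code n × Code n) = _
    rw [Nat.card_prod, code_fin n, ← pow_add]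
    congr 1
    ring

end Types

/-- Zeros at distinct points of high multiplicity. -/
theorem mul_card_le {L : Type} [Field L] {β : Type} (e : β → L) (S : Finset β) (k : ℕ)
    (V : L[X]) (hV : V ≠ 0) (he : ∀ b ∈ S, ∀ b' ∈ S, e b = e b' → b = b')
    (h : ∀ b ∈ S, (X - C (e b)) ^ k ∣ V) : k * S.card ≤ V.natDegree := by
  have h1 : ∏ b ∈ S, (X - C (e b)) ^ k ∣ V := by
    apply Finset.prod_dvd_of_coprime
    · intro b hb b' hb' hne
      apply IsCoprime.pow
      exact isCoprime_X_sub_C_of_isUnit_sub (sub_ne_zero.mpr fun h0 => hne (he b hb b' hb' h0)).isUnit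
    · exact h
  have h2 := natDegree_le_of_dvd h1 hV
  rw [natDegree_prod_of_monic] at h2
  · simp only [natDegree_pow, natDegree_X_sub_C, mul_one, Finset.sum_const, smul_eq_mul] at h2
    rw [mul_comm]
    exact h2
  · intro b _
    exact (monic_X_sub_C _).pow k

theorem cls (hEVL : EvlStmt) (hSPO : SpoStmt) (hSCI : SciStmt) (hGLB : GlbStmt) : ClsStmt := by
  classical
  intro ι _ _ q _ p m g h L _ a α hs T hT s S P2 hS
  obtain ⟨-, e2, -, -, e5, -⟩ := hEVL ι q L α hs.pri hs.inj
  let f : Pt q → Code T.length × Rk q T := fun b => (code (tt g h α) T b s, rk T b)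
  have : Finite (Rk q T) := (Rk_fin q T).1
  have : Fintype (Rk q T) := Fintype.ofFinite _
  have hcard : Fintype.card (Code T.length × Rk q T) =
      4 ^ (2 ^ T.length) * (T.map fun x => if x.2 then q x.1 else 1).prod := by
    rw [← Nat.card_eq_fintype_card, Nat.card_prod, code_fin, (Rk_fin q T).2]
  -- the functions in terms of the types
  have hA : (fun b : Pt q => Ax m g h (ev α b)) = fun b : Pt q =>
      ((fun e : Bool × Bool => Am L m g h e.1 e.2) (tt g h α b)).comp (C (ev α b) * X) := by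
    funext b
    simp only [Ax, tt, (e2 b).2.2]
  have hB : (fun b : Pt q => Bx m (ev α b)) = fun b : Pt q =>
      (Dl L m).comp (C (ev α b) * X) := rfl
  -- a class
  have key : ∀ c, P2 * (S.filter fun b => f b = c).card ≤ 6 * MT q m T := by
    intro c
    rcases (S.filter fun b => f b = c).eq_empty_or_nonempty with h0 | ⟨b₀, hb₀⟩
    · rw [h0]
      simp
    · rw [Finset.mem_filter] at hb₀
      obtain ⟨hb₀S, hb₀c⟩ := hb₀
      obtain ⟨g1, g2, -, g4⟩ := hS b₀ hb₀S
      have hx0 := (e2 b₀).1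
      set V : L[X] := (SS (FN m g h α T b₀ s).1 (FN m g h α T b₀ s).2).comp
        (C (ev α b₀)⁻¹ * X) with hVdef
      have hdeg : V.natDegree ≤ 6 * MT q m T := by
        obtain ⟨d1, d2, -⟩ := hSPO ι q p m g h L a α hs T hT b₀ s g1 g2
        have d3 := ((hSCI L (FN m g h α T b₀ s).1 (FN m g h α T b₀ s).2 1 1 0 1 1 0
          (MT q m T)).2.2.2.2.2.1 d1 d2).1
        have d4 : V.natDegree ≤ (SS (FN m g h α T b₀ s).1 (FN m g h α T b₀ s).2).natDegree *
            (C (ev α b₀)⁻¹ * X : L[X]).natDegree := natDegree_comp_le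
        rw [natDegree_C_mul_X _ (inv_ne_zero hx0), mul_one] at d4
        exact d4.trans d3
      have hV0 : V ≠ 0 := by
        intro hV
        apply g4
        have h1 : (V.comp (C (ev α b₀) * X)) = SS (FN m g h α T b₀ s).1 (FN m g h α T b₀ s).2 := by
          rw [hVdef, comp_assoc]
          have : (C (ev α b₀)⁻¹ * X : L[X]).comp (C (ev α b₀) * X) = X := by
            rw [mul_comp, C_comp, X_comp, ← mul_assoc, ← C_mul, inv_mul_cancel₀ hx0, C_1, one_mul]
          rw [this, comp_X]
        rw [← h1, hV, zero_comp]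
      have hdvd : ∀ b ∈ S.filter fun b => f b = c, (X - C (ev α b)) ^ P2 ∣ V := by
        intro b hb
        rw [Finset.mem_filter] at hb
        obtain ⟨hbS, hbc⟩ := hb
        obtain ⟨-, -, k3, -⟩ := hS b hbS
        have hxb := (e2 b).1
        have hfb : f b = f b₀ := hbc.trans hb₀c.symm
        have hf1 : code (tt g h α) T b s = code (tt g h α) T b₀ s := congrArg Prod.fst hfb
        have hf2 : rk T b = rk T b₀ := congrArg Prod.snd hfb
        have hG := hGLB ι q L α hs.pri hs.inj (fun e : Bool × Bool => Am L m g h e.1 e.2) (Dl L m)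
          (tt g h α) T b b₀ s hf1 (rk_eq b b₀ T hf2)
        rw [← hA, ← hB] at hG
        change (FN m g h α T b s).1.comp (C (ev α b)⁻¹ * X) =
            (FN m g h α T b₀ s).1.comp (C (ev α b₀)⁻¹ * X) ∧
          (FN m g h α T b s).2.comp (C (ev α b)⁻¹ * X) =
            (FN m g h α T b₀ s).2.comp (C (ev α b₀)⁻¹ * X) at hG
        have hV : V = (SS (FN m g h α T b s).1 (FN m g h α T b s).2).comp
            (C (ev α b)⁻¹ * X) := by
          rw [hVdef, ← (hSCI L (FN m g h α T b₀ s).1 (FN m g h α T b₀ s).2 1 1 0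
              (ev α b₀)⁻¹ 1 0 0).2.2.2.1,
            ← (hSCI L (FN m g h α T b s).1 (FN m g h α T b s).2 1 1 0
              (ev α b)⁻¹ 1 0 0).2.2.2.1, hG.1, hG.2]
        obtain ⟨W, hW⟩ := k3
        rw [hV, hW, mul_comp, pow_comp, sub_comp, X_comp, one_comp]
        have h2 : (C (ev α b)⁻¹ * X - 1 : L[X]) = C (ev α b)⁻¹ * (X - C (ev α b)) := by
          rw [mul_sub, ← C_mul, inv_mul_cancel₀ hxb, C_1]
        rw [h2, mul_pow]
        exact ⟨C (ev α b)⁻¹ ^ P2 * W.comp (C (ev α b)⁻¹ * X), by ring⟩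
      refine (mul_card_le (fun b => ev α b) _ P2 V hV0 ?_ hdvd).trans hdeg
      intro b _ b' _ h0
      exact e5 b b' h0
  have hsum : S.card = ∑ c : Code T.length × Rk q T, (S.filter fun b => f b = c).card :=
    Finset.card_eq_sum_card_fiberwise (fun b _ => Finset.mem_coe.mpr (Finset.mem_univ (f b)))
  rw [hsum, Finset.mul_sum]
  calc ∑ c : Code T.length × Rk q T, P2 * (S.filter fun b => f b = c).card
      ≤ ∑ _c : Code T.length × Rk q T, 6 * MT q m T := Finset.sum_le_sum fun c _ => key c
    _ = 4 ^ (2 ^ T.length) * (T.map fun x => if x.2 then q x.1 else 1).prod *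
        (6 * MT q m T) := by
        rw [Finset.sum_const, Finset.card_univ, hcard, smul_eq_mul]

end Pool.Agent.CYE.H84
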